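import Pool.Agent.H55.BP.Targets

/-! Row CNT of board bpl_modules (MP_bacf0e_co). -/

set_option autoImplicit false

open Finset

namespace Pool.Agent.H23.BPL

open Pool.Agent.H55.BP

theorem cnt_ty (j : ℕ) : (ty 12 j).val = j % 12 := by
  unfold ty
  exact Fin.val_ofNat 12 j

theorem pf_CNT : T_CNT := by
  classical
  intro q hq
  set P : Finset (Fin q × Fin q) :=
    univ.filter fun x => x.1 < x.2 ∧ x.1.val % 12 = x.2.val % 12 with hP
  have hs : same 12 q (univ.filter fun k => k.val % 2 = 0) =
      P.filter (fun x => x.1.val % 2 = 0) := by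
    ext x
    unfold same
    rw [mem_filter, mem_filter, hP, mem_filter, mem_filter, cnt_ty]
    simp only [mem_univ, true_and]
    have h : x.1.val % 12 % 2 = x.1.val % 2 := Nat.mod_mod_of_dvd _ (by decide)
    rw [h]
    tauto
  rw [hs]
  have h1 : (P.filter (fun x => x.1.val % 2 = 0)).card ≤
      (P.filter (fun x => ¬ x.1.val % 2 = 0)).card := by
    have hb : ∀ i : Fin q, i.val % 2 = 0 → i.val + 1 < q := by
      intro i hi
      have := i.2
      obtain ⟨r, hr⟩ := hq
      omega
    refine Finset.card_le_card_of_injOn (fun x =>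
      if h : x.1.val % 2 = 0 ∧ x.2.val % 2 = 0 then
        ((⟨x.1.val + 1, hb _ h.1⟩ : Fin q), (⟨x.2.val + 1, hb _ h.2⟩ : Fin q)) else x) ?_ ?_
    · intro x hx
      rw [Finset.mem_coe, mem_filter, hP, mem_filter] at hx
      obtain ⟨⟨_, h1, h2⟩, h3⟩ := hx
      have h4 : x.2.val % 2 = 0 := by omega
      rw [Finset.mem_coe]
      simp only [dif_pos (And.intro h3 h4)]
      rw [mem_filter, hP, mem_filter]
      rw [Fin.lt_def] at h1
      refine ⟨⟨mem_univ _, ?_, ?_⟩, ?_⟩
      · rw [Fin.lt_def]
        change x.1.val + 1 < x.2.val + 1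
        omega
      · change (x.1.val + 1) % 12 = (x.2.val + 1) % 12
        omega
      · change ¬ (x.1.val + 1) % 2 = 0
        omega
    · intro x hx y hy hxy
      rw [Finset.mem_coe, mem_filter, hP, mem_filter] at hx hy
      obtain ⟨⟨_, h1, h2⟩, h3⟩ := hx
      obtain ⟨⟨_, h1', h2'⟩, h3'⟩ := hy
      have h4 : x.2.val % 2 = 0 := by omega
      have h4' : y.2.val % 2 = 0 := by omega
      simp only [dif_pos (And.intro h3 h4), dif_pos (And.intro h3' h4')] at hxy
      have e1 := congrArg (fun z => z.1.val) hxy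
      have e2 := congrArg (fun z => z.2.val) hxy
      simp only at e1 e2
      refine Prod.ext (Fin.ext ?_) (Fin.ext ?_)
      · omega
      · omega
  have h2 := Finset.card_filter_add_card_filter_not (s := P) (fun x => x.1.val % 2 = 0)
  omega

end Pool.Agent.H23.BPL
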