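import Pool.Agent.H55.BP.Targets

/-! Row CRB of board bpl_modules (MP_bacf0e_co). -/

set_option autoImplicit false

open Finset

namespace Pool.Agent.H23.BPL

open Pool.Agent.H55.BP

theorem crb_inj {V : Type} (c : V → Bool) {e f : V × V} (he1 : c e.1 = true) (hf2 : c f.2 = false)
    (h : s(e.1, e.2) = s(f.1, f.2)) : e = f := by
  rw [Sym2.eq_iff] at h
  rcases h with h | h
  · exact Prod.ext h.1 h.2
  · rw [h.1, hf2] at he1
    exact absurd he1 (by decide)

theorem pf_CRB (hEB : T_EB) (hDWD : T_DWD) : T_CRB := by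
  classical
  intro V _ G c hc D h3
  have : Fintype V := Fintype.ofFinite V
  set E0 : Finset (V × V) := univ.filter
    (fun e => G.Adj e.1 e.2 ∧ c e.1 = true ∧ c e.2 = false) with hE0
  have hm : ∀ e, e ∈ E0 ↔ (G.Adj e.1 e.2 ∧ c e.1 = true ∧ c e.2 = false) := by
    intro e
    rw [hE0, mem_filter]
    simp only [mem_univ, true_and]
  have hsurj : ∀ a b, G.Adj a b → ∃ e ∈ E0, s(e.1, e.2) = s(a, b) := by
    intro a b hab
    have h := hc a b hab
    rcases hca : c a with _ | _
    · refine ⟨(b, a), (hm _).mpr ⟨hab.symm, ?_, hca⟩, Sym2.eq_swap⟩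
      rw [hca] at h
      rcases hcb : c b with _ | _
      · rw [hcb] at h; exact absurd rfl h
      · rfl
    · refine ⟨(a, b), (hm _).mpr ⟨hab, hca, ?_⟩, rfl⟩
      rw [hca] at h
      rcases hcb : c b with _ | _
      · rfl
      · rw [hcb] at h; exact absurd rfl h
  have hcard : Nat.card G.edgeSet ≤ E0.card := by
    have h1 : G.edgeSet ⊆ ((E0.image (fun e => s(e.1, e.2)) : Finset (Sym2 V)) : Set (Sym2 V)) := by
      intro x hx
      induction x using Sym2.ind with
      | h a b =>
        obtain ⟨e, he, hee⟩ := hsurj a b hx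
        rw [Finset.mem_coe, mem_image]
        exact ⟨e, he, hee⟩
    have h2 := Set.ncard_le_ncard h1 (Finset.finite_toSet _)
    rw [Set.ncard_coe_finset] at h2
    have h3 : Nat.card G.edgeSet = G.edgeSet.ncard := rfl
    rw [h3]
    exact h2.trans Finset.card_image_le
  set X : Finset (Sym2 (Sym2 V) × ℂ) := D.fin.toFinset with hX
  have hXc : X.card = D.crossings := by
    unfold Drawing.crossings
    rw [hX, Set.ncard_eq_toFinset_card _ D.fin]
  have hch : ∀ x : X, ∃ e ∈ E0, s(e.1, e.2) ∈ x.1.1 := by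
    intro x
    have hx : x.1 ∈ crossSet G D.arc := (Set.Finite.mem_toFinset D.fin).mp x.2
    obtain ⟨a, b, c', d, hab, hcd, hne, h1, h2, h4⟩ := hx
    obtain ⟨e, he, hee⟩ := hsurj a b hab
    refine ⟨e, he, ?_⟩
    rw [h1, hee]
    exact Sym2.mem_mk_left _ _
  choose δ hδ1 hδ2 using hch
  set R : Finset (V × V) := univ.image δ with hR
  have hRc : R.card ≤ X.card := by
    have h := Finset.card_image_le (s := (univ : Finset X)) (f := δ)
    rw [Finset.card_univ, Fintype.card_coe] at h
    exact h
  set E1 : Finset (V × V) := E0 \ R with hE1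
  have hE1c : E0.card ≤ E1.card + R.card := by
    exact Finset.card_le_card_sdiff_add_card
  have hWD : WD E1 := by
    refine hDWD G D c E1 ?_ ?_
    · intro e he
      exact (hm e).mp (Finset.sdiff_subset he)
    · intro e he f hf hef1 hef2
      rw [Set.disjoint_left]
      intro z hze hzf
      rw [hE1, mem_sdiff] at he hf
      obtain ⟨he0, heR⟩ := he
      obtain ⟨hf0, hfR⟩ := hf
      have he' := (hm e).mp he0
      have hf' := (hm f).mp hf0
      have hx : (s(s(e.1, e.2), s(f.1, f.2)), z) ∈ crossSet G D.arc := by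
        refine ⟨e.1, e.2, f.1, f.2, he'.1, hf'.1, ?_, rfl, hze, hzf⟩
        intro h
        exact hef1 (congrArg Prod.fst (crb_inj c he'.2.1 hf'.2.2 h))
      have hxX : (s(s(e.1, e.2), s(f.1, f.2)), z) ∈ X := by
        rw [hX, Set.Finite.mem_toFinset]; exact hx
      have h1 := hδ1 ⟨_, hxX⟩
      have h2 := hδ2 ⟨_, hxX⟩
      have h1' := (hm _).mp h1
      rw [Sym2.mem_iff] at h2
      have h3 : δ ⟨_, hxX⟩ ∈ R := by
        rw [hR]; exact mem_image_of_mem _ (mem_univ _)
      rcases h2 with h2 | h2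
      · have := crb_inj c h1'.2.1 he'.2.2 h2
        rw [this] at h3
        exact heR h3
      · have := crb_inj c h1'.2.1 hf'.2.2 h2
        rw [this] at h3
        exact hfR h3
  have h4 : 3 ≤ (univ : Finset V).card := by
    rw [Finset.card_univ, ← Nat.card_eq_fintype_card]; exact h3
  have h5 := hEB c univ E1 (fun e he => by
    have := (hm e).mp (Finset.sdiff_subset he)
    exact ⟨mem_univ _, mem_univ _, this.2.1, this.2.2⟩) hWD h4
  rw [Finset.card_univ, ← Nat.card_eq_fintype_card] at h5
  omega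

end Pool.Agent.H23.BPL
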