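import Pool.Agent.H55.BP.Targets

/-! Row DWD of board bpl_modules (MP_bacf0e_co). -/

set_option autoImplicit false

open Finset

namespace Pool.Agent.H23.BPL

open Pool.Agent.H55.BP

theorem dwd_cases {V : Type} {G : SimpleGraph V} (D : Drawing G) {u v : V} (h : G.Adj u v) {x : ℂ}
    (hx : x ∈ D.arc u v '' Set.Icc 0 1) :
    x ∈ D.arc u v '' Set.Ioo 0 1 ∨ x = D.pt u ∨ x = D.pt v := by
  obtain ⟨s, hs, rfl⟩ := hx
  rcases eq_or_lt_of_le hs.1 with h0 | h0
  · right; left
    rw [← h0, D.zero u v h]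
  · rcases eq_or_lt_of_le hs.2 with h1 | h1
    · right; right
      rw [h1, D.one u v h]
    · left
      exact ⟨s, ⟨h0, h1⟩, rfl⟩

theorem dwd_avoid {V : Type} {G : SimpleGraph V} (D : Drawing G) {u v : V} (h : G.Adj u v) {x : ℂ}
    (hx : x ∈ D.arc u v '' Set.Ioo 0 1) (w : V) : x ≠ D.pt w := by
  obtain ⟨s, hs, rfl⟩ := hx
  exact D.avoid u v h s hs w

theorem pf_DWD : T_DWD := by
  intro V G D c E h1 h2
  refine ⟨D.pt, fun u v => D.arc u v '' Set.Icc 0 1, ?_, ?_⟩
  · intro e he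
    have hA := (h1 e he).1
    exact JoinedIn.ofLine (D.cont _ _ hA) (D.zero _ _ hA) (D.one _ _ hA) subset_rfl
  · intro e he f hf hef1 hef2
    rw [Set.disjoint_left]
    intro x hxe hxf
    obtain ⟨hAe, hce1, hce2⟩ := h1 e he
    obtain ⟨hAf, hcf1, hcf2⟩ := h1 f hf
    have hne1 : e.1 ≠ f.2 := by
      intro h; rw [h, hcf2] at hce1; exact absurd hce1 (by decide)
    have hne2 : e.2 ≠ f.1 := by
      intro h; rw [h, hcf1] at hce2; exact absurd hce2 (by decide)
    rcases dwd_cases D hAe hxe with ha | ha | ha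
    · rcases dwd_cases D hAf hxf with hb | hb | hb
      · exact Set.disjoint_left.mp (h2 e he f hf hef1 hef2) ha hb
      · exact dwd_avoid D hAe ha _ hb
      · exact dwd_avoid D hAe ha _ hb
    · rcases dwd_cases D hAf hxf with hb | hb | hb
      · exact dwd_avoid D hAf hb _ ha
      · exact hef1 (D.pt_inj (ha.symm.trans hb))
      · exact hne1 (D.pt_inj (ha.symm.trans hb))
    · rcases dwd_cases D hAf hxf with hb | hb | hb
      · exact dwd_avoid D hAf hb _ ha
      · exact hne2 (D.pt_inj (ha.symm.trans hb))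
      · exact hef2 (D.pt_inj (ha.symm.trans hb))

end Pool.Agent.H23.BPL
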