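import Pool.Agent.H55.BP.Targets

/-! Row TUR of board bpl_modules (MP_bacf0e_co). -/

set_option autoImplicit false

open Finset

namespace Pool.Agent.H23.BPL

open Pool.Agent.H55.BP

/-- the number of edges of a graph on `Fin q` as a number of ordered pairs -/
theorem tur_card {q : ℕ} (G : SimpleGraph (Fin q)) [DecidableRel G.Adj] :
    G.edgeFinset.card = ((univ : Finset (Fin q × Fin q)).filter
      fun x => x.1 < x.2 ∧ G.Adj x.1 x.2).card := by
  symm
  refine Finset.card_bij (fun x _ => s(x.1, x.2)) ?_ ?_ ?_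
  · intro x hx
    rw [mem_filter] at hx
    rw [SimpleGraph.mem_edgeFinset, SimpleGraph.mem_edgeSet]
    exact hx.2.2
  · intro x hx y hy h
    rw [mem_filter] at hx hy
    rw [Sym2.eq_iff] at h
    rcases h with h | h
    · exact Prod.ext h.1 h.2
    · have h1 := hx.2.1
      have h2 := hy.2.1
      rw [h.1, h.2] at h1
      exact absurd h1 (not_lt.mpr h2.le)
  · intro e he
    induction e using Sym2.ind with
    | h a b =>
      rw [SimpleGraph.mem_edgeFinset, SimpleGraph.mem_edgeSet] at he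
      rcases lt_trichotomy a b with h | h | h
      · exact ⟨(a, b), by rw [mem_filter]; exact ⟨mem_univ _, h, he⟩, rfl⟩
      · rw [h] at he; exact absurd he (G.loopless.irrefl _)
      · exact ⟨(b, a), by rw [mem_filter]; exact ⟨mem_univ _, h, he.symm⟩, Sym2.eq_swap⟩

theorem tur_compl {q : ℕ} (G : SimpleGraph (Fin q)) [DecidableRel G.Adj] :
    G.edgeFinset.card + ((univ : Finset (Fin q × Fin q)).filter
      fun x => x.1 < x.2 ∧ ¬ G.Adj x.1 x.2).card =
    ((univ : Finset (Fin q × Fin q)).filter fun x => x.1 < x.2).card := by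
  rw [tur_card, ← Finset.card_filter_add_card_filter_not
    (s := (univ : Finset (Fin q × Fin q)).filter fun x => x.1 < x.2) (fun x => G.Adj x.1 x.2),
    Finset.filter_filter, Finset.filter_filter]

/-- the inner points of the arcs of the edges at `i` and `j` are disjoint -/
def free {q : ℕ} {G : SimpleGraph (Fin 5 ⊕ Fin q)} (D : Drawing G) (i j : Fin q) : Prop :=
  ∀ a b : Fin 5, G.Adj (Sum.inl a) (Sum.inr i) → G.Adj (Sum.inl b) (Sum.inr j) →
    Disjoint (D.arc (Sum.inl a) (Sum.inr i) '' Set.Ioo 0 1)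
      (D.arc (Sum.inl b) (Sum.inr j) '' Set.Ioo 0 1)

theorem free_symm {q : ℕ} {G : SimpleGraph (Fin 5 ⊕ Fin q)} (D : Drawing G) {i j : Fin q}
    (h : free D i j) : free D j i := fun a b ha hb => (h b a hb ha).symm

/-- a set of 13 black vertices without crossings between different stars -/
theorem tur_plane (hEB : T_EB) (hDWD : T_DWD) {q : ℕ} {G : SimpleGraph (Fin 5 ⊕ Fin q)}
    (D : Drawing G) (Q : Finset (Fin q)) (hQ : Q.card = 13)
    (h : ∀ i ∈ Q, ∀ j ∈ Q, i ≠ j → free D i j) (F : Finset (Fin 5 × Fin q))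
    (hF : ∀ x ∈ F, x.2 ∈ Q ∧ G.Adj (Sum.inl x.1) (Sum.inr x.2)) : F.card ≤ 32 := by
  classical
  set g : Fin 5 × Fin q → (Fin 5 ⊕ Fin q) × (Fin 5 ⊕ Fin q) :=
    fun x => (Sum.inl x.1, Sum.inr x.2) with hg
  have hgi : Function.Injective g := by
    intro x y hxy
    rw [hg] at hxy
    simp only [Prod.mk.injEq, Sum.inl.injEq, Sum.inr.injEq] at hxy
    exact Prod.ext hxy.1 hxy.2
  set E : Finset ((Fin 5 ⊕ Fin q) × (Fin 5 ⊕ Fin q)) := F.image g with hE
  set S : Finset (Fin 5 ⊕ Fin q) := (univ : Finset (Fin 5)).disjSum Q with hS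
  have hSc : S.card = 18 := by
    rw [hS, Finset.card_disjSum, hQ, Finset.card_univ, Fintype.card_fin]
  have hW : WD E := by
    refine hDWD G D (fun v => v.isLeft) E ?_ ?_
    · intro e he
      rw [hE, mem_image] at he
      obtain ⟨x, hx, rfl⟩ := he
      exact ⟨(hF x hx).2, rfl, rfl⟩
    · intro e he f hf _ h2
      rw [hE, mem_image] at he hf
      obtain ⟨x, hx, rfl⟩ := he
      obtain ⟨y, hy, rfl⟩ := hf
      have hne : x.2 ≠ y.2 := fun hh => h2 (congrArg Sum.inr hh)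
      exact h _ (hF x hx).1 _ (hF y hy).1 hne _ _ (hF x hx).2 (hF y hy).2
  have h1 := hEB (fun v : Fin 5 ⊕ Fin q => v.isLeft) S E (fun e he => by
    rw [hE, mem_image] at he
    obtain ⟨x, hx, rfl⟩ := he
    refine ⟨?_, ?_, rfl, rfl⟩
    · rw [hS]; exact Finset.inl_mem_disjSum.mpr (mem_univ _)
    · rw [hS]; exact Finset.inr_mem_disjSum.mpr (hF x hx).1) hW (by omega)
  rw [hE, Finset.card_image_of_injective _ hgi, hSc] at h1
  omega

theorem tur_inj {q : ℕ} {a b a' b' : Fin 5} {i j i' j' : Fin q} (hij : i < j) (hij' : i' < j')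
    (h : (s(s((Sum.inl a : Fin 5 ⊕ Fin q), Sum.inr i), s(Sum.inl b, Sum.inr j)) :
      Sym2 (Sym2 (Fin 5 ⊕ Fin q))) = s(s(Sum.inl a', Sum.inr i'), s(Sum.inl b', Sum.inr j'))) :
    i = i' ∧ j = j' := by
  have key : ∀ (x y : Fin 5) (k l : Fin q),
      s((Sum.inl x : Fin 5 ⊕ Fin q), Sum.inr k) = s(Sum.inl y, Sum.inr l) → k = l := by
    intro x y k l hh
    rw [Sym2.eq_iff] at hh
    rcases hh with hh | hh
    · exact Sum.inr.inj hh.2
    · exact absurd hh.1 (by simp)
  rw [Sym2.eq_iff] at h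
  rcases h with h | h
  · exact ⟨key _ _ _ _ h.1, key _ _ _ _ h.2⟩
  · have h1 := key _ _ _ _ h.1
    have h2 := key _ _ _ _ h.2
    rw [h1, h2] at hij
    exact absurd hij (not_lt.mpr hij'.le)

theorem pf_TUR (hEB : T_EB) (hDWD : T_DWD) : T_TUR := by
  classical
  intro q B
  -- the graph of the pairs without crossings
  let H : SimpleGraph (Fin q) :=
    { Adj := fun i j => i ≠ j ∧ free B.D₁ i j ∧ free B.D₂ i j
      symm := ⟨fun i j h => ⟨h.1.symm, free_symm _ h.2.1, free_symm _ h.2.2⟩⟩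
      loopless := ⟨fun i h => h.1 rfl⟩ }
  have hfree : H.CliqueFree 13 := by
    intro Q hQ
    have hc := hQ.isClique
    have hQ13 := hQ.card_eq
    have hadj : ∀ i ∈ Q, ∀ j ∈ Q, i ≠ j → H.Adj i j := fun i hi j hj hij => hc hi hj hij
    set F : Finset (Fin 5 × Fin q) := univ ×ˢ Q with hF
    have hFc : F.card = 65 := by
      rw [hF, Finset.card_product, hQ13, Finset.card_univ, Fintype.card_fin]
    set F1 := F.filter (fun x => B.G₁.Adj (Sum.inl x.1) (Sum.inr x.2)) with hF1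
    set F2 := F.filter (fun x => B.G₂.Adj (Sum.inl x.1) (Sum.inr x.2)) with hF2
    have h1 : F1.card ≤ 32 := tur_plane hEB hDWD B.D₁ Q hQ13
      (fun i hi j hj hij => (hadj i hi j hj hij).2.1) F1 (fun x hx => by
        rw [hF1, mem_filter, hF, mem_product] at hx
        exact ⟨hx.1.2, hx.2⟩)
    have h2 : F2.card ≤ 32 := tur_plane hEB hDWD B.D₂ Q hQ13
      (fun i hi j hj hij => (hadj i hi j hj hij).2.2) F2 (fun x hx => by
        rw [hF2, mem_filter, hF, mem_product] at hx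
        exact ⟨hx.1.2, hx.2⟩)
    have h3 : F ⊆ F1 ∪ F2 := by
      intro x hx
      have h4 : (K 5 q).Adj (Sum.inl x.1) (Sum.inr x.2) := by simp [K]
      rw [← B.sup, SimpleGraph.sup_adj] at h4
      rw [mem_union, hF1, hF2, mem_filter, mem_filter]
      tauto
    have h5 := Finset.card_le_card h3
    have h6 := Finset.card_union_le F1 F2
    omega
  have hT : H.edgeFinset.card ≤ (SimpleGraph.turanGraph q 12).edgeFinset.card := by
    have h1 := (SimpleGraph.isTuranMaximal_turanGraph (n := q) (r := 12) (by norm_num)).2 hfree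
    exact h1
  have e1 := tur_compl H
  have e2 := tur_compl (SimpleGraph.turanGraph q 12)
  have e3 : ((univ : Finset (Fin q × Fin q)).filter
      fun x => x.1 < x.2 ∧ x.1.val % 12 = x.2.val % 12) =
      ((univ : Finset (Fin q × Fin q)).filter
      fun x => x.1 < x.2 ∧ ¬ (SimpleGraph.turanGraph q 12).Adj x.1 x.2) := by
    refine Finset.filter_congr (fun x _ => ?_)
    rw [SimpleGraph.turanGraph_adj, not_not]
  rw [e3]
  have e4 : ((univ : Finset (Fin q × Fin q)).filter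
      fun x => x.1 < x.2 ∧ ¬ (SimpleGraph.turanGraph q 12).Adj x.1 x.2).card ≤
      ((univ : Finset (Fin q × Fin q)).filter fun x => x.1 < x.2 ∧ ¬ H.Adj x.1 x.2).card := by
    omega
  refine e4.trans ?_
  -- the crossings
  have hX : B.crossings = (B.D₁.fin.toFinset.disjSum B.D₂.fin.toFinset).card := by
    unfold Biplanar.crossings Drawing.crossings
    rw [Finset.card_disjSum, Set.ncard_eq_toFinset_card _ B.D₁.fin,
      Set.ncard_eq_toFinset_card _ B.D₂.fin]
  rw [hX]
  have hcr : ∀ x : Fin q × Fin q, x ∈ (univ : Finset (Fin q × Fin q)).filter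
      (fun x => x.1 < x.2 ∧ ¬ H.Adj x.1 x.2) →
      ∃ y : (Sym2 (Sym2 (Fin 5 ⊕ Fin q)) × ℂ) ⊕ (Sym2 (Sym2 (Fin 5 ⊕ Fin q)) × ℂ),
        y ∈ B.D₁.fin.toFinset.disjSum B.D₂.fin.toFinset ∧
        ∃ (a b : Fin 5), (Sum.elim (fun z => z.1) (fun z => z.1) y :
          Sym2 (Sym2 (Fin 5 ⊕ Fin q))) = s(s(Sum.inl a, Sum.inr x.1), s(Sum.inl b, Sum.inr x.2)) := by
    intro x hx
    rw [mem_filter] at hx
    obtain ⟨_, hlt, hna⟩ := hx
    have hne : x.1 ≠ x.2 := hlt.ne
    have h1 : ¬ (free B.D₁ x.1 x.2 ∧ free B.D₂ x.1 x.2) := fun h => hna ⟨hne, h⟩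
    have hex : ∀ {G : SimpleGraph (Fin 5 ⊕ Fin q)} (D : Drawing G), ¬ free D x.1 x.2 →
        ∃ (a b : Fin 5) (z : ℂ),
          (s(s(Sum.inl a, Sum.inr x.1), s(Sum.inl b, Sum.inr x.2)), z) ∈ crossSet G D.arc := by
      intro G D hD
      unfold free at hD
      push Not at hD
      obtain ⟨a, b, ha, hb, hd⟩ := hD
      rw [Set.not_disjoint_iff] at hd
      obtain ⟨z, hz1, hz2⟩ := hd
      refine ⟨a, b, z, Sum.inl a, Sum.inr x.1, Sum.inl b, Sum.inr x.2, ha, hb, ?_, rfl, hz1, hz2⟩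
      intro h
      rw [Sym2.eq_iff] at h
      rcases h with h | h
      · exact hne (Sum.inr.inj h.2)
      · exact absurd h.1 (by simp)
    rw [not_and_or] at h1
    rcases h1 with h1 | h1
    · obtain ⟨a, b, z, hz⟩ := hex B.D₁ h1
      refine ⟨Sum.inl (s(s(Sum.inl a, Sum.inr x.1), s(Sum.inl b, Sum.inr x.2)), z), ?_, a, b, rfl⟩
      rw [Finset.inl_mem_disjSum, Set.Finite.mem_toFinset]
      exact hz
    · obtain ⟨a, b, z, hz⟩ := hex B.D₂ h1
      refine ⟨Sum.inr (s(s(Sum.inl a, Sum.inr x.1), s(Sum.inl b, Sum.inr x.2)), z), ?_, a, b, rfl⟩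
      rw [Finset.inr_mem_disjSum, Set.Finite.mem_toFinset]
      exact hz
  refine Finset.card_le_card_of_injOn (fun x => if hx : x ∈ (univ : Finset (Fin q × Fin q)).filter
    (fun x => x.1 < x.2 ∧ ¬ H.Adj x.1 x.2) then (hcr x hx).choose else
      Sum.inl (s(s(Sum.inr x.1, Sum.inr x.1), s(Sum.inr x.1, Sum.inr x.1)), 0)) ?_ ?_
  · intro x hx
    rw [Finset.mem_coe] at hx
    rw [Finset.mem_coe]
    simp only [dif_pos hx]
    exact (hcr x hx).choose_spec.1
  · intro x hx y hy hxy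
    rw [Finset.mem_coe] at hx hy
    simp only [dif_pos hx, dif_pos hy] at hxy
    obtain ⟨a, b, h1⟩ := (hcr x hx).choose_spec.2
    obtain ⟨a', b', h2⟩ := (hcr y hy).choose_spec.2
    rw [hxy, h2] at h1
    have h3 := tur_inj (mem_filter.mp hy).2.1 (mem_filter.mp hx).2.1 h1
    exact (Prod.ext h3.1 h3.2).symm

end Pool.Agent.H23.BPL
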